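import Mathlib
import Pool.Agent.H233R2.QR2

/-!
# Sauer's question on quasiregular subgraphs has a negative answer

For all `K` and `F` there is a finite graph with at least `F n` edges on its `n` vertices in which
no nonempty subgraph has all its degrees in `[3, K]`.  The graph is a random bipartite graph in
which each of `N` vertices has one neighbour in each of `L` layers whose sizes decrease rapidly
(as in the construction of Pyber, Rödl and Szemerédi of graphs without 3-regular subgraphs).
-/

set_option autoImplicit false

namespace Pool.Agent.Results.MP_78fef3_co.NoQuasiregular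

/-- `H` is a `(k, C)`-quasiregular subgraph of `G`: it has at least one vertex, and each of its
vertices `x` has degree `d_H(x)` in `H` with `k < d_H(x) < C k`. -/
def Quasiregular {V : Type} {G : SimpleGraph V} (k : ℕ) (C : ℝ) (H : G.Subgraph) : Prop :=
  H.verts.Nonempty ∧ ∀ x ∈ H.verts, (k : ℝ) < ((H.neighborSet x).ncard : ℝ) ∧
    ((H.neighborSet x).ncard : ℝ) < C * k

/-- For each real `C`, each integer `k ≥ 2` and each real `F` there are an integer `n ≥ 1` and a
graph with `n` vertices and at least `F n` edges which has no `(k, C)`-quasiregular subgraph. -/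
theorem result (C : ℝ) (k : ℕ) (hk : 2 ≤ k) (F : ℝ) :
    ∃ (n : ℕ) (G : SimpleGraph (Fin n)), 1 ≤ n ∧ F * n ≤ (G.edgeSet.ncard : ℝ) ∧
      ∀ H : G.Subgraph, ¬ Quasiregular k C H := by
  classical
  obtain ⟨K, hK⟩ := exists_nat_ge (C * k)
  obtain ⟨V, hV, hne, G, hedge, hG⟩ := Pool.Agent.H233R2.QR.main K F
  obtain ⟨n, hn⟩ : ∃ n, n = Fintype.card V := ⟨_, rfl⟩
  let e : G ≃g G.overFin hn.symm := G.overFinIso hn.symm
  refine ⟨n, G.overFin hn.symm, ?_, ?_, ?_⟩
  · rw [hn]
    exact Fintype.card_pos
  · have h1 : (G.overFin hn.symm).edgeSet.ncard = G.edgeSet.ncard :=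
      (Nat.card_congr e.mapEdgeSet).symm
    rw [h1, hn]
    exact hedge
  · intro H hH
    let H' : G.Subgraph := H.comap e.toHom
    have hdeg : ∀ x, (H'.neighborSet x).ncard = (H.neighborSet (e x)).ncard := by
      intro x
      have h1 : H'.neighborSet x = e ⁻¹' (H.neighborSet (e x)) := by
        ext y
        simp only [H', SimpleGraph.Subgraph.mem_neighborSet, SimpleGraph.Subgraph.comap_adj,
          Set.mem_preimage]
        constructor
        · rintro ⟨_, h⟩
          exact h
        · intro h
          exact ⟨e.map_adj_iff.1 h.adj_sub, h⟩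
      rw [h1]
      apply Set.ncard_preimage_of_injective_subset_range e.injective
      intro y _
      exact e.surjective y
    refine hG H' ?_ ?_
    · obtain ⟨y, hy⟩ := hH.1
      obtain ⟨x, rfl⟩ := e.surjective y
      exact ⟨x, hy⟩
    · intro x hx
      obtain ⟨h1, h2⟩ := hH.2 (e x) hx
      rw [hdeg]
      have h3 : k < (H.neighborSet (e x)).ncard := by exact_mod_cast h1
      have h4 : ((H.neighborSet (e x)).ncard : ℝ) ≤ K := h2.le.trans hK
      exact ⟨by omega, by exact_mod_cast h4⟩

end Pool.Agent.Results.MP_78fef3_co.NoQuasiregular
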